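import Mathlib
import Pool.Agent.H27.Wobble
import Pool.Agent.H27.Heis

set_option autoImplicit false

namespace Pool.Agent.Results.MP_2c2cb6_an.Heisenberg

/-- the discrete Heisenberg group: upper unitriangular `3 × 3` integer matrices -/
def UT : Set (Matrix (Fin 3) (Fin 3) ℤ) :=
  {M | M 0 0 = 1 ∧ M 1 1 = 1 ∧ M 2 2 = 1 ∧ M 1 0 = 0 ∧ M 2 0 = 0 ∧ M 2 1 = 0}

theorem result : ∃ d ≥ 2, ∃ (A : Type) (_ : Finite A) (_ : TopologicalSpace A)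
    (_ : DiscreteTopology A) (X : Set ((Fin d → ℤ) → A)), X.Nonempty ∧ IsClosed X ∧
    (∀ u, (fun x v => x (u + v)) '' X = X) ∧ ∃ φ : Matrix (Fin 3) (Fin 3) ℤ → (X ≃ₜ X),
      Set.InjOn φ UT ∧ (∀ M ∈ UT, ∀ N ∈ UT, ∀ x, φ (M * N) x = φ M (φ N x)) ∧
      ∀ g u (x x' : X), (∀ v, x'.1 v = x.1 (u + v)) → ∀ v, (φ g x').1 v = (φ g x).1 (u + v) := by
  classical
  obtain ⟨f, hf, hL⟩ := H27.Heis.emb
  obtain ⟨A, _, _, _, X, h1, h2, h3, φ, h4, h5⟩ := H27.Wobble.general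
    {⟨1, 0, 0⟩, ⟨0, 1, 0⟩, ⟨0, 0, 1⟩} (by simpa using H27.Heis.gen) f hf hL
  let ι : Matrix (Fin 3) (Fin 3) ℤ → H27.Heis.H := fun M => ⟨M 0 1, M 1 2, M 0 2⟩
  refine ⟨14, by norm_num, A, ‹_›, _, ‹_›, X, h1, h2, h3, fun M => φ (ι M), ?_, ?_,
    fun g => h5 _⟩
  · rintro M ⟨a1, a2, a3, a4, a5, a6⟩ N ⟨b1, b2, b3, b4, b5, b6⟩ h
    obtain ⟨c1, c2, c3⟩ := H27.Heis.H.ext_iff.mp (h4 h)
    ext i j
    fin_cases i <;> fin_cases j <;> simp_all [ι]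
  · rintro M ⟨a1, a2, a3, a4, a5, a6⟩ N ⟨b1, b2, b3, b4, b5, b6⟩ x
    have : ι (M * N) = ι M * ι N := by
      ext <;> simp [ι, Matrix.mul_apply, Fin.sum_univ_three, *] <;> ring
    show φ (ι (M * N)) x = _
    rw [this, map_mul]
    rfl

end Pool.Agent.Results.MP_2c2cb6_an.Heisenberg
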